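import Pool.Agent.W997.NL.Stm2
import Pool.Agent.W997.DB.Circuit

/-!
# Boolean circuits for the evaluation of a graph of degree two, and the parity of the outputs
-/

set_option autoImplicit false

namespace Pool.Agent.W978.NLC

open Finset
open Pool.Agent.W997.SR (Dag)
open Pool.Agent.W997.SR.Dag (value)
open Pool.Agent.W997.TS (bit)
open Pool.Agent.W997.DB (Op Circuit bits ent ByCircuit)
open Pool.Agent.W997.NL (IOG xbit S_CIRC)

section Dag

variable {G : Dag} {l : ℕ}

/-- There is a child with this number. -/
def Rel (v : G.Γ) (s : Fin 2) : Prop := s.val < (G.kid v).card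

instance (v : G.Γ) (s : Fin 2) : Decidable (Rel v s) := inferInstanceAs (Decidable (_ < _))

/-- The child with a given number. -/
noncomputable def chd (v : G.Γ) (s : Fin 2) : G.Γ :=
  if hs : s.val < (G.kid v).card then ((G.kid v).equivFin.symm ⟨s.val, hs⟩).1 else v

theorem rk_chd (v : G.Γ) (s : Fin 2) (h : Rel v s) : G.rk (chd v s) + 1 ≤ G.rk v := by
  have hs : s.val < (G.kid v).card := h
  unfold chd
  rw [dif_pos hs]
  exact G.kid_lt v _ ((G.kid v).equivFin.symm ⟨s.val, hs⟩).2

theorem sum_fin {M : Type} [AddCommMonoid M] (n : ℕ) (hn : n ≤ 2) (F : Fin n → M) :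
    ∑ i, F i = ∑ s : Fin 2, if h : s.val < n then F ⟨s.val, h⟩ else 0 := by
  rcases n with _ | _ | _ | n
  · simp
  · rw [Fin.sum_univ_two]
    simp
  · rw [Fin.sum_univ_two, Fin.sum_univ_two]
    simp
  · omega

theorem sum_kid {M : Type} [AddCommMonoid M] (v : G.Γ) (hv : (G.kid v).card ≤ 2) (f : G.Γ → M) :
    ∑ c : {c : G.Γ // c ∈ G.kid v}, f c.1 = ∑ s : Fin 2, if Rel v s then f (chd v s) else 0 := by
  rw [← Equiv.sum_comp (G.kid v).equivFin.symm (fun c : {c : G.Γ // c ∈ G.kid v} => f c.1),
    sum_fin _ hv]
  refine sum_congr rfl fun s _ => ?_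
  by_cases h : Rel v s
  · have h' : s.val < (G.kid v).card := h
    rw [dif_pos h', if_pos h]
    unfold chd
    rw [dif_pos h']
  · have h' : ¬ s.val < (G.kid v).card := h
    rw [dif_neg h', if_neg h]

/-- The entry of the table of a node with given bits. -/
def entV (v : G.Γ) (w : Fin (2 * l) → Bool) : G.Var (2 ^ l) :=
  (v, ∑ s : Fin 2, if Rel v s then ent w s else 0)

/-- The bits of the values of the children. -/
noncomputable def tru (x : G.Var (2 ^ l) → Fin (2 ^ l)) (v : G.Γ) : Fin (2 * l) → Bool := fun q =>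
  if Rel v (finProdFinEquiv.symm q).1 then
    (value x (chd v (finProdFinEquiv.symm q).1)).val.testBit (finProdFinEquiv.symm q).2.val
  else false

theorem ent_tru (x : G.Var (2 ^ l) → Fin (2 ^ l)) (v : G.Γ) (s : Fin 2) (h : Rel v s) :
    ent (tru x v) s = value x (chd v s) := by
  apply Fin.ext
  simp only [ent, tru, Equiv.symm_apply_apply, if_pos h]
  rw [Nat.ofBits_testBit, Nat.mod_eq_of_lt (Fin.is_lt _)]

theorem val_tru (x : G.Var (2 ^ l) → Fin (2 ^ l)) (v : G.Γ) (hv : (G.kid v).card ≤ 2) :
    x (entV v (tru x v)) = value x v := by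
  unfold entV
  rw [value, sum_kid v hv (value x)]
  congr 2
  refine sum_congr rfl fun s _ => ?_
  by_cases h : Rel v s
  · rw [if_pos h, if_pos h, ent_tru x v s h]
  · rw [if_neg h, if_neg h]

/-- The first `m` bits are taken from `w`, the other ones are the true ones. -/
noncomputable def mix (x : G.Var (2 ^ l) → Fin (2 ^ l)) (v : G.Γ) (m : ℕ)
    (w : Fin (2 * l) → Bool) : Fin (2 * l) → Bool := fun q =>
  if q.val < m then w q else tru x v q

/-- The bit `c` of the entry with partly given bits. -/
noncomputable def sel (x : G.Var (2 ^ l) → Fin (2 ^ l)) (v : G.Γ) (c : Fin l) (m : ℕ)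
    (w : Fin (2 * l) → Bool) : Bool :=
  (x (entV v (mix x v m w))).val.testBit c.val

theorem sel_zero (x : G.Var (2 ^ l) → Fin (2 ^ l)) (v : G.Γ) (hv : (G.kid v).card ≤ 2) (c : Fin l)
    (w : Fin (2 * l) → Bool) : sel x v c 0 w = (value x v).val.testBit c.val := by
  unfold sel
  have : mix x v 0 w = tru x v := by
    funext q
    simp [mix]
  rw [this, val_tru x v hv]

theorem sel_top (x : G.Var (2 ^ l) → Fin (2 ^ l)) (v : G.Γ) (c : Fin l)
    (m : ℕ) (w : Fin (2 * l) → Bool) (hm : ¬ m < 2 * l) :
    sel x v c m w = (x (entV v w)).val.testBit c.val := by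
  unfold sel
  have : mix x v m w = w := by
    funext q
    unfold mix
    rw [if_pos]
    have := q.2
    omega
  rw [this]

theorem sel_succ (x : G.Var (2 ^ l) → Fin (2 ^ l)) (v : G.Γ) (c : Fin l)
    (m : ℕ) (hm : m < 2 * l) (w : Fin (2 * l) → Bool) (b : Bool) (hb : tru x v ⟨m, hm⟩ = b) :
    sel x v c (m + 1) (Function.update w ⟨m, hm⟩ b) = sel x v c m w := by
  unfold sel
  congr 4
  funext q
  unfold mix
  by_cases h1 : q = ⟨m, hm⟩
  · subst h1
    rw [if_pos (by simp only; omega), if_neg (by simp only; omega), Function.update_self, hb]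
  · have h2 : q.val ≠ m := fun h3 => h1 (Fin.ext h3)
    rw [Function.update_of_ne h1]
    by_cases h3 : q.val < m
    · rw [if_pos (by omega), if_pos h3]
    · rw [if_neg (by omega), if_neg h3]

variable (G l) in
/-- The gates. -/
abbrev EGate : Type :=
  G.Γ × Fin l × Fin (2 * l + 1) × (Fin (2 * l) → Bool) × Fin 4

/-- The gate for a bit of the value of a node. -/
def valG (v : G.Γ) (c : Fin l) (κ : Fin 4) : EGate G l :=
  (v, c, 0, fun _ => false, κ)

/-- The number of the child to which a bit belongs. -/
def cn (m : ℕ) (hm : m < 2 * l) : Fin 2 := (finProdFinEquiv.symm (⟨m, hm⟩ : Fin (2 * l))).1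

/-- The number of the bit of the child. -/
def bn (m : ℕ) (hm : m < 2 * l) : Fin l := (finProdFinEquiv.symm (⟨m, hm⟩ : Fin (2 * l))).2

/-- The labels of the gates. -/
noncomputable def eop (g : EGate G l) : Op (G.Var (2 ^ l) × Fin l) (EGate G l) :=
  if g.2.2.2.2 = 3 then Op.not (valG g.1 g.2.1 0)
  else if hm : g.2.2.1.val < 2 * l then
    if ¬ Rel g.1 (cn g.2.2.1.val hm) then
      Op.or (g.1, g.2.1, ⟨g.2.2.1.val + 1, by omega⟩,
          Function.update g.2.2.2.1 ⟨g.2.2.1.val, hm⟩ false, 0)
        (g.1, g.2.1, ⟨g.2.2.1.val + 1, by omega⟩,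
          Function.update g.2.2.2.1 ⟨g.2.2.1.val, hm⟩ false, 0)
    else if g.2.2.2.2 = 0 then
      Op.or (g.1, g.2.1, g.2.2.1, g.2.2.2.1, 1) (g.1, g.2.1, g.2.2.1, g.2.2.2.1, 2)
    else if g.2.2.2.2 = 1 then
      Op.and (valG (chd g.1 (cn g.2.2.1.val hm)) (bn g.2.2.1.val hm) 3)
        (g.1, g.2.1, ⟨g.2.2.1.val + 1, by omega⟩,
          Function.update g.2.2.2.1 ⟨g.2.2.1.val, hm⟩ false, 0)
    else
      Op.and (valG (chd g.1 (cn g.2.2.1.val hm)) (bn g.2.2.1.val hm) 0)
        (g.1, g.2.1, ⟨g.2.2.1.val + 1, by omega⟩,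
          Function.update g.2.2.2.1 ⟨g.2.2.1.val, hm⟩ true, 0)
  else Op.lit (entV g.1 g.2.2.2.1, g.2.1)

/-- The levels of the gates. -/
def elev (g : EGate G l) : ℕ :=
  if g.2.2.2.2 = 3 then G.rk g.1 * (4 * l + 3) + 4 * l + 2
  else if g.2.2.2.2 = 0 then G.rk g.1 * (4 * l + 3) + 1 + 2 * (2 * l - g.2.2.1.val)
  else G.rk g.1 * (4 * l + 3) + 2 * (2 * l - g.2.2.1.val)

theorem elev0 (v : G.Γ) (c : Fin l) (m : Fin (2 * l + 1)) (w : Fin (2 * l) → Bool) :
    elev ((v, c, m, w, 0) : EGate G l) = G.rk v * (4 * l + 3) + 1 + 2 * (2 * l - m.val) := by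
  unfold elev
  simp only [Fin.isValue, Fin.reduceEq, if_false, if_true]

theorem elev1 (v : G.Γ) (c : Fin l) (m : Fin (2 * l + 1)) (w : Fin (2 * l) → Bool) (κ : Fin 4)
    (h3 : κ ≠ 3) (h0 : κ ≠ 0) :
    elev ((v, c, m, w, κ) : EGate G l) = G.rk v * (4 * l + 3) + 2 * (2 * l - m.val) := by
  unfold elev
  simp only
  rw [if_neg h3, if_neg h0]

theorem elev3 (v : G.Γ) (c : Fin l) (m : Fin (2 * l + 1)) (w : Fin (2 * l) → Bool) :
    elev ((v, c, m, w, 3) : EGate G l) = G.rk v * (4 * l + 3) + 4 * l + 2 := by
  unfold elev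
  simp

theorem elev_ge (v : G.Γ) (c : Fin l) (m : Fin (2 * l + 1)) (w : Fin (2 * l) → Bool) (κ : Fin 4)
    (h3 : κ ≠ 3) : G.rk v * (4 * l + 3) + 2 * (2 * l - m.val) ≤ elev ((v, c, m, w, κ) : EGate G l) := by
  by_cases h0 : κ = 0
  · subst h0
    rw [elev0]
    omega
  · rw [elev1 v c m w κ h3 h0]

theorem elev_next (v : G.Γ) (c : Fin l) (m : Fin (2 * l + 1)) (hm : m.val < 2 * l)
    (w w' : Fin (2 * l) → Bool) (κ : Fin 4) (h3 : κ ≠ 3) :
    elev ((v, c, ⟨m.val + 1, by omega⟩, w', 0) : EGate G l) < elev ((v, c, m, w, κ) : EGate G l) := by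
  have h1 := elev_ge v c m w κ h3
  rw [elev0]
  simp only
  omega

theorem elev_child (v : G.Γ) (c c' : Fin l) (m : Fin (2 * l + 1)) (_hm : m.val < 2 * l)
    (w : Fin (2 * l) → Bool) (κ κ' : Fin 4) (h3 : κ ≠ 3) (s : Fin 2) (hs : Rel v s)
    (hκ' : κ' = 0 ∨ κ' = 3) :
    elev (valG (chd v s) c' κ') < elev ((v, c, m, w, κ) : EGate G l) := by
  have h1 := elev_ge v c m w κ h3
  have h2 := rk_chd v s hs
  have h4 : (G.rk (chd v s) + 1) * (4 * l + 3) ≤ G.rk v * (4 * l + 3) := Nat.mul_le_mul_right _ h2
  have h5 : (G.rk (chd v s) + 1) * (4 * l + 3) = G.rk (chd v s) * (4 * l + 3) + (4 * l + 3) := by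
    ring
  have h6 : elev (valG (chd v s) c' κ') ≤ G.rk (chd v s) * (4 * l + 3) + 4 * l + 2 := by
    unfold valG
    rcases hκ' with rfl | rfl
    · rw [elev0]
      simp only [Fin.coe_ofNat_eq_mod, Nat.zero_mod]
      omega
    · rw [elev3]
  omega

theorem eop_lt (g : EGate G l) : ∀ a ∈ (eop g).args, elev a < elev g := by
  obtain ⟨v, c, m, w, κ⟩ := g
  intro a ha
  unfold eop at ha
  simp only at ha
  by_cases h3 : κ = 3
  · rw [if_pos h3] at ha
    simp only [Op.args, List.mem_singleton] at ha
    subst ha
    subst h3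
    rw [elev3]
    unfold valG
    rw [elev0]
    simp only [Fin.coe_ofNat_eq_mod, Nat.zero_mod]
    omega
  · rw [if_neg h3] at ha
    by_cases hm : m.val < 2 * l
    · rw [dif_pos hm] at ha
      by_cases hr : Rel v (cn m.val hm)
      · rw [if_neg (not_not.2 hr)] at ha
        by_cases h0 : κ = 0
        · rw [if_pos h0] at ha
          subst h0
          simp only [Op.args, List.mem_cons, List.not_mem_nil, or_false] at ha
          rcases ha with rfl | rfl
          · rw [elev0, elev1 _ _ _ _ _ (by decide) (by decide)]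
            omega
          · rw [elev0, elev1 _ _ _ _ _ (by decide) (by decide)]
            omega
        · rw [if_neg h0] at ha
          by_cases h1 : κ = 1
          · rw [if_pos h1] at ha
            simp only [Op.args, List.mem_cons, List.not_mem_nil, or_false] at ha
            rcases ha with rfl | rfl
            · exact elev_child v c _ m hm w κ 3 h3 _ hr (Or.inr rfl)
            · exact elev_next v c m hm w _ κ h3
          · rw [if_neg h1] at ha
            simp only [Op.args, List.mem_cons, List.not_mem_nil, or_false] at ha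
            rcases ha with rfl | rfl
            · exact elev_child v c _ m hm w κ 0 h3 _ hr (Or.inl rfl)
            · exact elev_next v c m hm w _ κ h3
      · rw [if_pos hr] at ha
        simp only [Op.args, List.mem_cons, List.not_mem_nil, or_false] at ha
        rcases ha with rfl | rfl
        · exact elev_next v c m hm w _ κ h3
        · exact elev_next v c m hm w _ κ h3
    · rw [dif_neg hm] at ha
      simp [Op.args] at ha

/-- The values of the gates. -/
noncomputable def eval (x : G.Var (2 ^ l) → Fin (2 ^ l)) (g : EGate G l) : Bool :=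
  if g.2.2.2.2 = 3 then !(value x g.1).val.testBit g.2.1.val
  else if hm : g.2.2.1.val < 2 * l then
    if ¬ Rel g.1 (cn g.2.2.1.val hm) ∨ g.2.2.2.2 = 0 then sel x g.1 g.2.1 g.2.2.1.val g.2.2.2.1
    else if g.2.2.2.2 = 1 then
      (!tru x g.1 ⟨g.2.2.1.val, hm⟩ && sel x g.1 g.2.1 (g.2.2.1.val + 1)
        (Function.update g.2.2.2.1 ⟨g.2.2.1.val, hm⟩ false))
    else
      (tru x g.1 ⟨g.2.2.1.val, hm⟩ && sel x g.1 g.2.1 (g.2.2.1.val + 1)
        (Function.update g.2.2.2.1 ⟨g.2.2.1.val, hm⟩ true))
  else sel x g.1 g.2.1 g.2.2.1.val g.2.2.2.1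

theorem eval_zero (x : G.Var (2 ^ l) → Fin (2 ^ l)) (v : G.Γ) (c : Fin l)
    (m : Fin (2 * l + 1)) (w : Fin (2 * l) → Bool) :
    eval x ((v, c, m, w, 0) : EGate G l) = sel x v c m.val w := by
  unfold eval
  simp only [Fin.isValue, Fin.reduceEq, if_false, or_true, if_true, dite_eq_ite, ite_self]

theorem eval_valG (x : G.Var (2 ^ l) → Fin (2 ^ l)) (v : G.Γ) (hv : (G.kid v).card ≤ 2) (c : Fin l) :
    eval x (valG v c 0) = (value x v).val.testBit c.val := by
  unfold valG
  rw [eval_zero]
  exact sel_zero x v hv c _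

theorem eval_valG3 (x : G.Var (2 ^ l) → Fin (2 ^ l)) (v : G.Γ) (c : Fin l) :
    eval x (valG v c 3) = !(value x v).val.testBit c.val := by
  unfold valG eval
  simp only [Fin.isValue, if_true]

theorem tru_rel (x : G.Var (2 ^ l) → Fin (2 ^ l)) (v : G.Γ) (m : ℕ) (hm : m < 2 * l)
    (hr : Rel v (cn m hm)) :
    tru x v ⟨m, hm⟩ = (value x (chd v (cn m hm))).val.testBit (bn m hm).val := by
  unfold tru
  have : Rel v (finProdFinEquiv.symm (⟨m, hm⟩ : Fin (2 * l))).1 := hr
  rw [if_pos this]
  rfl

theorem tru_irr (x : G.Var (2 ^ l) → Fin (2 ^ l)) (v : G.Γ) (m : ℕ) (hm : m < 2 * l)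
    (hr : ¬ Rel v (cn m hm)) : tru x v ⟨m, hm⟩ = false := by
  unfold tru
  have : ¬ Rel v (finProdFinEquiv.symm (⟨m, hm⟩ : Fin (2 * l))).1 := hr
  rw [if_neg this]

theorem eval_eop (hd : ∀ v : G.Γ, (G.kid v).card ≤ 2) (x : G.Var (2 ^ l) → Fin (2 ^ l))
    (g : EGate G l) : eval x g = (eop g).eval (bits x) (eval x) := by
  obtain ⟨v, c, m, w, κ⟩ := g
  unfold eop
  simp only
  by_cases h3 : κ = 3
  · rw [if_pos h3]
    subst h3
    simp only [Op.eval]
    rw [eval_valG x v (hd v)]
    unfold eval
    simp only [Fin.isValue, if_true]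
  · rw [if_neg h3]
    by_cases hm : m.val < 2 * l
    · rw [dif_pos hm]
      by_cases hr : Rel v (cn m.val hm)
      · rw [if_neg (not_not.2 hr)]
        have hr' : ¬ ¬ Rel v (cn m.val hm) := not_not.2 hr
        have e1 : eval x ((v, c, m, w, 1) : EGate G l) =
            (!tru x v ⟨m.val, hm⟩ && sel x v c (m.val + 1)
              (Function.update w ⟨m.val, hm⟩ false)) := by
          unfold eval
          simp only [Fin.isValue, Fin.reduceEq, if_false, or_false, if_true, dif_pos hm, if_neg hr']
        have e2 : eval x ((v, c, m, w, 2) : EGate G l) =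
            (tru x v ⟨m.val, hm⟩ && sel x v c (m.val + 1)
              (Function.update w ⟨m.val, hm⟩ true)) := by
          unfold eval
          simp only [Fin.isValue, Fin.reduceEq, if_false, or_false, dif_pos hm, if_neg hr']
        by_cases h0 : κ = 0
        · rw [if_pos h0]
          subst h0
          simp only [Op.eval]
          rw [eval_zero, e1, e2]
          cases htr : tru x v ⟨m.val, hm⟩ with
          | false =>
            rw [sel_succ x v c m.val hm w false htr]
            simp
          | true =>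
            rw [sel_succ x v c m.val hm w true htr]
            simp
        · rw [if_neg h0]
          by_cases h1 : κ = 1
          · rw [if_pos h1]
            subst h1
            simp only [Op.eval]
            rw [e1, eval_valG3, eval_zero, tru_rel x v m.val hm hr]
          · rw [if_neg h1]
            have h2 : κ = 2 := by
              have := κ.2
              apply Fin.ext
              have a0 : κ.val ≠ 0 := fun h => h0 (Fin.ext h)
              have a1 : κ.val ≠ 1 := fun h => h1 (Fin.ext h)
              have a3 : κ.val ≠ 3 := fun h => h3 (Fin.ext h)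
              simp only [Fin.isValue, Fin.coe_ofNat_eq_mod, Nat.reduceMod]
              omega
            subst h2
            simp only [Op.eval]
            rw [e2, eval_valG x _ (hd _), eval_zero, tru_rel x v m.val hm hr]
      · rw [if_pos hr]
        simp only [Op.eval]
        rw [eval_zero, sel_succ x v c m.val hm w false (tru_irr x v m.val hm hr), Bool.or_self]
        unfold eval
        simp only
        rw [if_neg h3, dif_pos hm, if_pos (Or.inl hr)]
    · rw [dif_neg hm]
      simp only [Op.eval, bits]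
      rw [← sel_top x v c m.val w hm]
      unfold eval
      simp only
      rw [if_neg h3, dif_neg hm]

end Dag

/-! ### Parity -/

/-- The parity of the first `j` bits. -/
def par (b : ℕ → Bool) : ℕ → Bool
  | 0 => false
  | j + 1 => (par b j && !b j) || (!par b j && b j)

theorem par_eq (b : ℕ → Bool) (j : ℕ) :
    par b j = decide (((range j).filter (fun i => b i = true)).card % 2 = 1) := by
  induction j with
  | zero => simp [par]
  | succ j ih =>
    rw [par, ih, range_add_one, filter_insert]
    cases hb : b j with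
    | true =>
      simp only [if_true, Bool.not_true, Bool.and_false, Bool.false_or, Bool.and_true]
      rw [card_insert_of_notMem (by simp)]
      by_cases h : ((range j).filter (fun i => b i = true)).card % 2 = 1
      · have h2 : ¬ (((range j).filter (fun i => b i = true)).card + 1) % 2 = 1 := by omega
        simp [h, h2]
      · have h2 : (((range j).filter (fun i => b i = true)).card + 1) % 2 = 1 := by omega
        simp [h, h2]
    | false => simp

section Main

variable {I : Type} [Fintype I] (G : IOG I) (l : ℕ)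

/-- The gates of the circuit. -/
abbrev PG : Type := EGate G.G l ⊕ (Fin (Fintype.card I) × Fin 4)

variable {G l}

/-- The output with a given number. -/
noncomputable def ou (j : Fin (Fintype.card I)) : G.G.Γ := G.out ((Fintype.equivFin I).symm j)

/-- The labels. -/
noncomputable def pop (hl : 0 < l) : PG G l → Op (G.G.Var (2 ^ l) × Fin l) (PG G l)
  | Sum.inl g =>
    match eop g with
    | Op.lit v => Op.lit v
    | Op.not a => Op.not (Sum.inl a)
    | Op.and a b => Op.and (Sum.inl a) (Sum.inl b)
    | Op.or a b => Op.or (Sum.inl a) (Sum.inl b)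
  | Sum.inr (j, κ) =>
    if κ = 3 then Op.not (Sum.inr (j, 0))
    else if h0 : j.val = 0 then
      Op.or (Sum.inl (valG (ou j) ⟨0, hl⟩ 3)) (Sum.inl (valG (ou j) ⟨0, hl⟩ 3))
    else if κ = 0 then Op.or (Sum.inr (j, 1)) (Sum.inr (j, 2))
    else if κ = 1 then
      Op.and (Sum.inr (⟨j.val - 1, by omega⟩, 0)) (Sum.inl (valG (ou j) ⟨0, hl⟩ 0))
    else Op.and (Sum.inr (⟨j.val - 1, by omega⟩, 3)) (Sum.inl (valG (ou j) ⟨0, hl⟩ 3))

/-- The highest level of the evaluation gates. -/
noncomputable def top : ℕ := univ.sup (fun g : EGate G.G l => elev g)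

theorem le_top (g : EGate G.G l) : elev g ≤ top (G := G) (l := l) :=
  le_sup (f := fun g : EGate G.G l => elev g) (mem_univ g)

/-- The levels. -/
noncomputable def plev : PG G l → ℕ
  | Sum.inl g => elev g
  | Sum.inr (j, κ) => top (G := G) (l := l) + 1 + 3 * j.val +
      (if κ = 3 then 2 else if κ = 0 then 1 else 0)

theorem pop_lt (hl : 0 < l) (g : PG G l) : ∀ a ∈ (pop hl g).args, plev a < plev g := by
  intro a ha
  rcases g with g | ⟨j, κ⟩
  · have h := eop_lt g
    unfold pop at ha
    simp only at ha
    cases he : eop g with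
    | lit v => rw [he] at ha; simp [Op.args] at ha
    | not b =>
      rw [he] at ha h
      simp only [Op.args, List.mem_singleton] at ha
      subst ha
      exact h b (by simp [Op.args])
    | and b c =>
      rw [he] at ha h
      simp only [Op.args, List.mem_cons, List.not_mem_nil, or_false] at ha
      rcases ha with rfl | rfl
      · exact h b (by simp [Op.args])
      · exact h c (by simp [Op.args])
    | or b c =>
      rw [he] at ha h
      simp only [Op.args, List.mem_cons, List.not_mem_nil, or_false] at ha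
      rcases ha with rfl | rfl
      · exact h b (by simp [Op.args])
      · exact h c (by simp [Op.args])
  · have hA : ∀ (g : EGate G.G l), plev (Sum.inl g : PG G l) < plev (Sum.inr (j, κ) : PG G l) := by
      intro g
      have := le_top (G := G) g
      unfold plev
      simp only
      omega
    unfold pop at ha
    simp only at ha
    by_cases h3 : κ = 3
    · rw [if_pos h3] at ha
      simp only [Op.args, List.mem_singleton] at ha
      subst ha
      subst h3
      unfold plev
      simp
    · rw [if_neg h3] at ha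
      by_cases h0 : j.val = 0
      · rw [dif_pos h0] at ha
        simp only [Op.args, List.mem_cons, List.not_mem_nil, or_false] at ha
        rcases ha with rfl | rfl
        · exact hA _
        · exact hA _
      · rw [dif_neg h0] at ha
        by_cases hκ : κ = 0
        · rw [if_pos hκ] at ha
          subst hκ
          simp only [Op.args, List.mem_cons, List.not_mem_nil, or_false] at ha
          rcases ha with rfl | rfl
          · unfold plev
            simp
          · unfold plev
            simp
        · rw [if_neg hκ] at ha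
          by_cases h1 : κ = 1
          · rw [if_pos h1] at ha
            simp only [Op.args, List.mem_cons, List.not_mem_nil, or_false] at ha
            rcases ha with rfl | rfl
            · unfold plev
              simp only [h3, hκ, if_false, Fin.isValue, Fin.reduceEq, if_true]
              omega
            · exact hA _
          · rw [if_neg h1] at ha
            simp only [Op.args, List.mem_cons, List.not_mem_nil, or_false] at ha
            rcases ha with rfl | rfl
            · unfold plev
              simp only [h3, hκ, if_false, Fin.isValue, if_true]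
              omega
            · exact hA _

/-- The bits of the outputs. -/
noncomputable def bo (x : G.G.Var (2 ^ l) → Fin (2 ^ l)) (j : ℕ) : Bool :=
  if h : j < Fintype.card I then bit (value x (ou (G := G) ⟨j, h⟩)) else false

/-- The values. -/
noncomputable def pval (x : G.G.Var (2 ^ l) → Fin (2 ^ l)) : PG G l → Bool
  | Sum.inl g => eval x g
  | Sum.inr (j, κ) =>
    if κ = 3 then !par (bo x) (j.val + 1)
    else if j.val = 0 ∨ κ = 0 then par (bo x) (j.val + 1)
    else if κ = 1 then par (bo x) j.val && !bo x j.val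
    else !par (bo x) j.val && bo x j.val

theorem bit_eq (x : G.G.Var (2 ^ l) → Fin (2 ^ l)) (v : G.G.Γ) :
    bit (value x v) = !(value x v).val.testBit 0 := by
  unfold bit
  rw [Nat.testBit_zero]
  have := Nat.mod_two_eq_zero_or_one (value x v).val
  rcases this with h1 | h1 <;> simp [h1]

theorem bo_eq (x : G.G.Var (2 ^ l) → Fin (2 ^ l)) (j : Fin (Fintype.card I)) :
    bo x j.val = bit (value x (ou (G := G) j)) := by
  unfold bo
  rw [dif_pos j.2]

theorem pval_pop (hl : 0 < l) (hd : ∀ v : G.G.Γ, (G.G.kid v).card ≤ 2)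
    (x : G.G.Var (2 ^ l) → Fin (2 ^ l)) (g : PG G l) :
    pval x g = (pop hl g).eval (bits x) (pval x) := by
  rcases g with g | ⟨j, κ⟩
  · have h := eval_eop hd x g
    unfold pop
    simp only
    cases he : eop g with
    | lit v => rw [he] at h; exact h
    | not b => rw [he] at h; exact h
    | and b c => rw [he] at h; exact h
    | or b c => rw [he] at h; exact h
  · have hb3 : pval x (Sum.inl (valG (ou j) ⟨0, hl⟩ 3) : PG G l) = bo x j.val := by
      rw [bo_eq, bit_eq]
      exact eval_valG3 x _ _
    have hb0 : pval x (Sum.inl (valG (ou j) ⟨0, hl⟩ 0) : PG G l) = !bo x j.val := by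
      rw [bo_eq, bit_eq, Bool.not_not]
      exact eval_valG x _ (hd _) _
    unfold pop
    simp only
    by_cases h3 : κ = 3
    · rw [if_pos h3]
      subst h3
      simp [Op.eval, pval]
    · rw [if_neg h3]
      by_cases h0 : j.val = 0
      · rw [dif_pos h0]
        simp only [Op.eval]
        rw [hb3, Bool.or_self]
        unfold pval
        simp only
        rw [if_neg h3, if_pos (Or.inl h0), h0]
        simp [par]
      · rw [dif_neg h0]
        by_cases hκ : κ = 0
        · rw [if_pos hκ]
          subst hκ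
          simp only [Op.eval]
          unfold pval
          simp only [Fin.isValue, Fin.reduceEq, if_false, or_true, if_true, h0, or_self, par]
        · rw [if_neg hκ]
          have hj1 : j.val - 1 + 1 = j.val := by omega
          by_cases h1 : κ = 1
          · rw [if_pos h1]
            subst h1
            simp only [Op.eval]
            rw [hb0]
            unfold pval
            simp only [Fin.isValue, Fin.reduceEq, if_false, or_true, if_true, h0, or_self, hj1]
          · rw [if_neg h1]
            simp only [Op.eval]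
            rw [hb3]
            unfold pval
            simp only [Fin.isValue, h3, hκ, h1, if_false, if_true, h0, or_self, hj1]

/-- The circuit. -/
noncomputable def circ (hl : 0 < l) (hI : 0 < Fintype.card I) :
    Circuit (G.G.Var (2 ^ l) × Fin l) where
  Gate := PG G l
  op := pop hl
  level := plev
  level_lt := pop_lt hl
  out := Sum.inr (⟨Fintype.card I - 1, by omega⟩, 0)

theorem circ_size (hl : 0 < l) (hI : 0 < Fintype.card I) :
    (circ (G := G) hl hI).size = Fintype.card G.G.Γ * (l * ((2 * l + 1) * (2 ^ (2 * l) * 4))) +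
      Fintype.card I * 4 := by
  unfold Circuit.size
  change Fintype.card (PG G l) = _
  simp only [Fintype.card_sum, Fintype.card_prod, Fintype.card_fun, Fintype.card_fin,
    Fintype.card_bool]

theorem par_xbit (x : G.G.Var (2 ^ l) → Fin (2 ^ l)) :
    par (bo x) (Fintype.card I) = xbit G x := by
  rw [par_eq]
  unfold xbit
  congr 2
  have h : ((range (Fintype.card I)).filter (fun i => bo x i = true)).card =
      (univ.filter (fun j : I => bit (value x (G.out j)) = true)).card := by
    symm
    refine card_bij (fun j _ => (Fintype.equivFin I j).val) ?_ ?_ ?_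
    · intro j hj
      rw [mem_filter] at hj ⊢
      refine ⟨mem_range.2 (Fintype.equivFin I j).2, ?_⟩
      rw [bo_eq]
      unfold ou
      rw [Equiv.symm_apply_apply]
      exact hj.2
    · intro j _ j' _ h
      exact (Fintype.equivFin I).injective (Fin.ext h)
    · intro i hi
      rw [mem_filter, mem_range] at hi
      refine ⟨(Fintype.equivFin I).symm ⟨i, hi.1⟩, ?_, ?_⟩
      · rw [mem_filter]
        refine ⟨mem_univ _, ?_⟩
        have h2 := hi.2
        unfold bo at h2
        rw [dif_pos hi.1] at h2
        exact h2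
      · simp
  rw [h]

theorem circ_outputs (hl : 0 < l) (hI : 0 < Fintype.card I)
    (hd : ∀ v : G.G.Γ, (G.G.kid v).card ≤ 2) (x : G.G.Var (2 ^ l) → Fin (2 ^ l)) :
    (circ (G := G) hl hI).Outputs (bits x) (xbit G x) := by
  refine ⟨pval x, pval_pop hl hd x, ?_⟩
  change pval x (Sum.inr (⟨Fintype.card I - 1, by omega⟩, 0) : PG G l) = _
  rw [← par_xbit]
  unfold pval
  simp only [Fin.isValue, Fin.reduceEq, if_false, or_true, if_true]
  congr 1
  omega

end Main

theorem main : S_CIRC := by
  intro I _ G l hl hd hI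
  have hI0 : 0 < Fintype.card I := Fintype.card_pos
  refine ⟨((circ (G := G) hl hI0).depth : ℝ), circ (G := G) hl hI0, ?_, le_rfl,
    fun x => circ_outputs hl hI0 hd x⟩
  rw [circ_size]
  have h1 : Fintype.card I ≤ Fintype.card G.G.Γ := Fintype.card_le_of_injective G.out G.out_inj
  have h2 : Fintype.card G.G.Γ * (l * ((2 * l + 1) * (2 ^ (2 * l) * 4))) + Fintype.card I * 4 ≤
      40 * l ^ 2 * Fintype.card G.G.Γ * 4 ^ l := by
    have e : 2 ^ (2 * l) = 4 ^ l := by rw [pow_mul]; norm_num
    rw [e]
    obtain ⟨P, hP⟩ : ∃ P, P = 4 ^ l := ⟨_, rfl⟩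
    have hP1 : 1 ≤ P := by rw [hP]; exact Nat.one_le_pow _ _ (by norm_num)
    rw [← hP]
    obtain ⟨n, hn⟩ : ∃ n, n = Fintype.card G.G.Γ := ⟨_, rfl⟩
    rw [← hn] at h1 ⊢
    have h3 : l * ((2 * l + 1) * (P * 4)) ≤ 12 * l ^ 2 * P := by
      have : 2 * l + 1 ≤ 3 * l := by omega
      calc l * ((2 * l + 1) * (P * 4)) ≤ l * ((3 * l) * (P * 4)) :=
            Nat.mul_le_mul_left _ (Nat.mul_le_mul_right _ this)
        _ = 12 * l ^ 2 * P := by ring
    have h4 : 1 ≤ l ^ 2 * P := Nat.one_le_iff_ne_zero.2 (by positivity)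
    have h5 : n * (l * ((2 * l + 1) * (P * 4))) ≤ n * (12 * l ^ 2 * P) := Nat.mul_le_mul_left _ h3
    have h6 : n * 4 ≤ n * 4 * (l ^ 2 * P) := Nat.le_mul_of_pos_right _ h4
    calc n * (l * ((2 * l + 1) * (P * 4))) + Fintype.card I * 4
        ≤ n * (12 * l ^ 2 * P) + n * 4 * (l ^ 2 * P) := by omega
      _ = 16 * (l ^ 2 * n * P) := by ring
      _ ≤ 40 * (l ^ 2 * n * P) := Nat.mul_le_mul_right _ (by norm_num)
      _ = 40 * l ^ 2 * n * P := by ring
  exact_mod_cast h2

end Pool.Agent.W978.NLC
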