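import Pool.Agent.W426.LE.SG

set_option autoImplicit false
set_option linter.all false

/-! No proper symmetric matrix is fixed by a group element with a zero component (task FREE). -/

namespace Pool.Agent.W978.LEFree

open Finset Pool.Agent.W426.LE
open scoped Classical

variable {p : ℕ} [Fact p.Prime] {F : Type} [Fintype F]

theorem one_ne (hp : p ≠ 2) : (1 : ZMod p) ≠ -1 := by
  intro h
  have h2 : ((2 : ℕ) : ZMod p) = 0 := by push_cast; linear_combination h
  rw [ZMod.natCast_eq_zero_iff] at h2
  exact hp ((Nat.prime_dvd_prime_iff_eq (Fact.out) Nat.prime_two).1 h2)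

theorem caseC (hp : p ≠ 2) (hF : Fintype.card F + 1 = p)
    (M : ZMod p × Bool → ZMod p × Bool → Option (CC p F)) (j : ZMod p) (hj : j ≠ 0)
    (hS : SymM M) (hb : ∀ v, Function.Bijective (M v)) (β : Bool)
    (h : ∀ y y', M (y, β) (y', β) = Option.map (sh j) (M (y, β) (y', β))) : False := by
  have hne : ∀ y y' : ZMod p, y' ≠ y → ∃ f, M (y, β) (y', β) = some (Sum.inr f) := by
    intro y y' hy
    rcases hM : M (y, β) (y', β) with _ | (z | f)
    · exfalso
      have := (hb (y, β)).1 (hM.trans (hS.1 (y, β)).symm)
      exact hy (Prod.ext_iff.1 this).1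
    · exfalso
      have h1 := h y y'
      rw [hM] at h1
      simp [sh] at h1
      exact hj h1
    · exact ⟨f, rfl⟩
  have hFne : Nonempty F := by
    have h1 : 0 < Fintype.card F := by
      have := (Fact.out : p.Prime).two_le
      omega
    exact Fintype.card_pos_iff.1 h1
  obtain ⟨f0⟩ := hFne
  have hex : ∀ y : ZMod p, ∃ y', y' ≠ y ∧ M (y, β) (y', β) = some (Sum.inr f0) := by
    intro y
    choose g hg using fun (y' : {y' : ZMod p // y' ≠ y}) => hne y y'.1 y'.2
    have hinj : Function.Injective g := by
      intro s t hst
      have h1 : M (y, β) (s.1, β) = M (y, β) (t.1, β) := by rw [hg s, hg t, hst]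
      exact Subtype.ext (Prod.ext_iff.1 ((hb (y, β)).1 h1)).1
    have hcard : Fintype.card {y' : ZMod p // y' ≠ y} = Fintype.card F := by
      rw [Fintype.card_subtype, Finset.filter_ne', card_erase_of_mem (mem_univ y), card_univ,
        ZMod.card]
      omega
    have hbij := (Fintype.bijective_iff_injective_and_card g).2 ⟨hinj, hcard⟩
    obtain ⟨y', hy'⟩ := hbij.2 f0
    exact ⟨y'.1, y'.2, by rw [hg y', hy']⟩
  choose i hi1 hi2 using hex
  have hinv : Function.Involutive i := by
    intro y
    have h1 : M (i y, β) (y, β) = some (Sum.inr f0) := by rw [hS.2]; exact hi2 y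
    have h2 := hi2 (i y)
    exact (Prod.ext_iff.1 ((hb (i y, β)).1 (h2.trans h1.symm))).1
  let σ : Equiv.Perm (ZMod p) := hinv.toPerm
  have hsq : σ ^ 2 = 1 := by
    ext y
    rw [sq, Equiv.Perm.mul_apply, Equiv.Perm.one_apply]
    exact congrArg ZMod.val (hinv y) |> fun h => by
      first
        | exact h
        | exact hinv y
  have hsupp : σ.support = univ := by
    ext y
    simp only [Equiv.Perm.mem_support, mem_univ, iff_true]
    exact hi1 y
  have h2 := Equiv.Perm.two_dvd_card_support hsq
  rw [hsupp, card_univ, ZMod.card] at h2
  exact hp ((Nat.prime_dvd_prime_iff_eq Nat.prime_two (Fact.out)).1 h2).symm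

theorem main : S_FREE := by
  intro p _ hp F _ hF M a b j hS hM hb hab
  -- some entry of row 0 is `some (inl 0)`
  have caseA : a = 0 → b = 0 → j = 0 := by
    intro ha hb0
    obtain ⟨v, hv⟩ := (hb (0, false)).2 (some (Sum.inl 0))
    have h1 := hM (0, false) v
    have htw : ∀ u, tw a b u = u := by
      rintro ⟨y, (_ | _)⟩ <;> simp [tw, ha, hb0]
    rw [htw, htw, hv] at h1
    simp [sh] at h1
    exact h1.symm
  by_cases ha : a = 0
  · by_cases hb0 : b = 0
    · exact ⟨ha, hb0, caseA ha hb0⟩
    · exfalso
      by_cases hj : j = 0
      · have h1 := hM (0, false) (0, true)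
        have e1 : tw a b (0, false) = (0, false) := by simp [tw, ha]
        have e2 : tw a b (0, true) = (b, true) := by simp [tw]
        rw [e1, e2, hj] at h1
        have h2 : M (0, false) (b, true) = M (0, false) (0, true) := by
          rw [h1]
          rcases M (0, false) (0, true) with _ | c
          · rfl
          · simp
        have h3 := (hb (0, false)).1 h2
        exact hb0 (Prod.ext_iff.1 h3).1
      · refine caseC hp hF M j hj hS hb false fun y y' => ?_
        have h1 := hM (y, false) (y', false)
        have e1 : ∀ y, tw a b (y, false) = (y, false) := fun y => by simp [tw, ha]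
        rw [e1, e1] at h1
        exact h1
  · exfalso
    by_cases hb0 : b = 0
    · by_cases hj : j = 0
      · have h1 := hM (0, true) (0, false)
        have e1 : tw a b (0, true) = (0, true) := by simp [tw, hb0]
        have e2 : tw a b (0, false) = (a, false) := by simp [tw]
        rw [e1, e2, hj] at h1
        have h2 : M (0, true) (a, false) = M (0, true) (0, false) := by
          rw [h1]
          rcases M (0, true) (0, false) with _ | c
          · rfl
          · simp
        have h3 := (hb (0, true)).1 h2
        exact ha (Prod.ext_iff.1 h3).1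
      · refine caseC hp hF M j hj hS hb true fun y y' => ?_
        have h1 := hM (y, true) (y', true)
        have e1 : ∀ y, tw a b (y, true) = (y, true) := fun y => by simp [tw, hb0]
        rw [e1, e1] at h1
        exact h1
    · have hj : j = 0 := by
        rcases hab with h | h | h
        · exact absurd h ha
        · exact absurd h hb0
        · exact h
      have step : ∀ y y' : ZMod p, M (y + a, false) (y' + a, false) = M (y, false) (y', false) := by
        intro y y'
        have h1 := hM (y, false) (y', false)
        simp only [tw] at h1
        rw [h1, hj]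
        rcases M (y, false) (y', false) with _ | c
        · rfl
        · simp
      have iter : ∀ (n : ℕ) (y y' : ZMod p),
          M (y + n * a, false) (y' + n * a, false) = M (y, false) (y', false) := by
        intro n
        induction n with
        | zero => intro y y'; simp
        | succ n ih =>
          intro y y'
          have h1 := step (y + n * a) (y' + n * a)
          rw [ih] at h1
          have e : ∀ z : ZMod p, z + ((n + 1 : ℕ) : ZMod p) * a = z + n * a + a := by
            intro z; push_cast; ring
          rw [e, e, h1]
      have h1 := iter ((-1 / a : ZMod p).val) 0 1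
      rw [ZMod.natCast_zmod_val, div_mul_cancel₀ _ ha] at h1
      rw [zero_add, add_neg_cancel, hS.2 (-1, false)] at h1
      have h2 := (hb (0, false)).1 h1
      exact one_ne hp (Prod.ext_iff.1 h2).1.symm

end Pool.Agent.W978.LEFree
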